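import Pool.Agent.H161R3.OQMain

set_option autoImplicit false

namespace Pool.Agent.Results.MP_5faa0b_co.AlmostAllMatchings

open Filter Topology

/-- The ordered graph `H` (on `Fin a` with its natural order) is contained in the ordered graph `G`:
there is a strictly increasing map sending edges to edges. -/
def Contains {a b : ℕ} (H : SimpleGraph (Fin a)) (G : SimpleGraph (Fin b)) : Prop :=
  ∃ f : Fin a → Fin b, StrictMono f ∧ ∀ u v, H.Adj u v → G.Adj (f u) (f v)

/-- Every red and blue colouring of the edges of the ordered complete graph on `N` vertices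
(`R` is the graph of red edges, its complement the graph of blue edges)
contains a red copy of `G` or a blue copy of `H`. -/
def Arrows (N : ℕ) {a b : ℕ} (G : SimpleGraph (Fin a)) (H : SimpleGraph (Fin b)) : Prop :=
  ∀ R : SimpleGraph (Fin N), Contains G R ∨ Contains H Rᶜ

/-- The ordered Ramsey number of `G` and `H`, the least `N` with `Arrows N G H`, is at most the real
number `x`: some `N ≤ x` satisfies `Arrows N G H`. -/
def RamseyLE {a b : ℕ} (G : SimpleGraph (Fin a)) (H : SimpleGraph (Fin b)) (x : ℝ) : Prop :=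
  ∃ N : ℕ, (N : ℝ) ≤ x ∧ Arrows N G H

/-- Ordered matching: every vertex has exactly one neighbour. -/
def IsOrderedMatching {n : ℕ} (G : SimpleGraph (Fin n)) : Prop := ∀ v, ∃! w, G.Adj v w

/-- The ordered matchings on `n` vertices. -/
def matchings (n : ℕ) : Set (SimpleGraph (Fin n)) := {G | IsOrderedMatching G}

/-- Those of them for which the ordered Ramsey number of the triangle and the matching is at most
`x`. -/
def goodMatchings (n : ℕ) (x : ℝ) : Set (SimpleGraph (Fin n)) :=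
  {G | G ∈ matchings n ∧ RamseyLE (⊤ : SimpleGraph (Fin 3)) G x}

open Pool.Agent.H161R3.OR (IsInv)
open Pool.Agent.H161R3.OR2

/-- the graph of an involution -/
def toG {n : ℕ} (M : Fin n → Fin n) : SimpleGraph (Fin n) := SimpleGraph.fromRel fun u v => M u = v

lemma toG_adj {n : ℕ} {M : Fin n → Fin n} (hM : IsInv M) (u v : Fin n) :
    (toG M).Adj u v ↔ M u = v := by
  unfold toG
  rw [SimpleGraph.fromRel_adj]
  constructor
  · rintro ⟨-, h | h⟩
    · exact h
    · rw [← h, hM.1]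
  · intro h
    exact ⟨fun e => hM.2 u (by rw [h, e]), Or.inl h⟩

lemma toG_matching {n : ℕ} {M : Fin n → Fin n} (hM : IsInv M) : IsOrderedMatching (toG M) := by
  intro v
  refine ⟨M v, (toG_adj hM v _).2 rfl, fun w hw => ((toG_adj hM v w).1 hw).symm⟩

lemma exists_toG {n : ℕ} {G : SimpleGraph (Fin n)} (hG : IsOrderedMatching G) :
    ∃ M : Fin n → Fin n, IsInv M ∧ toG M = G := by
  choose M hM1 hM2 using hG
  have hI : IsInv M := by
    refine ⟨fun u => ?_, fun u e => ?_⟩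
    · exact (hM2 (M u) u (hM1 u).symm).symm
    · exact (hM1 u).ne e.symm
  refine ⟨M, hI, ?_⟩
  ext u v
  rw [toG_adj hI]
  constructor
  · rintro rfl; exact hM1 u
  · intro h; exact (hM2 u v h).symm

lemma toG_inj {n : ℕ} {M M' : Fin n → Fin n} (hM : IsInv M) (hM' : IsInv M') (h : toG M = toG M') :
    M = M' := by
  funext u
  have h1 : (toG M).Adj u (M u) := (toG_adj hM u _).2 rfl
  rw [h] at h1
  exact ((toG_adj hM' u _).1 h1).symm

lemma matchings_eq (n : ℕ) : matchings n = toG '' (AM n : Set _) := by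
  ext G
  constructor
  · intro h1
    obtain ⟨M, hM, rfl⟩ := exists_toG h1
    exact ⟨M, Finset.mem_coe.2 ((mem_AM M).2 hM), rfl⟩
  · rintro ⟨M, hM, rfl⟩
    exact toG_matching ((mem_AM M).1 (Finset.mem_coe.1 hM))

lemma matchings_ncard (n : ℕ) : (matchings n).ncard = (AM n).card := by
  rw [matchings_eq, Set.InjOn.ncard_image, Set.ncard_coe_finset]
  intro M hM M' hM' h
  exact toG_inj ((mem_AM M).1 (Finset.mem_coe.1 hM)) ((mem_AM M').1 (Finset.mem_coe.1 hM')) h

lemma real_bound (n R N : ℕ) (hR : 1 ≤ R) (hn : 1 ≤ n) (hnR : n < (R + 1) ^ 34)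
    (h : N * R ≤ 40 * (n * n)) :
    (N : ℝ) ≤ 80 * (n : ℝ) ^ (2 - 1 / 34 : ℝ) := by
  have hn0 : (0 : ℝ) < n := by exact_mod_cast hn
  have hy0 : (0 : ℝ) < (n : ℝ) ^ (1 / 34 : ℝ) := Real.rpow_pos_of_pos hn0 _
  have hy : (n : ℝ) ^ (1 / 34 : ℝ) ≤ 2 * R := by
    have h1 : (n : ℝ) ≤ (2 * (R : ℝ)) ^ 34 := by
      have h2 : n ≤ (2 * R) ^ 34 := hnR.le.trans (Nat.pow_le_pow_left (by omega) _)
      exact_mod_cast h2
    have h3 : (n : ℝ) ^ (1 / 34 : ℝ) ≤ ((2 * (R : ℝ)) ^ 34) ^ (1 / 34 : ℝ) :=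
      Real.rpow_le_rpow hn0.le h1 (by norm_num)
    have h4 : ((2 * (R : ℝ)) ^ 34) ^ (1 / 34 : ℝ) = 2 * R := by
      rw [← Real.rpow_natCast, ← Real.rpow_mul (by positivity)]
      norm_num
    rwa [h4] at h3
  rw [Real.rpow_sub hn0, Real.rpow_two]
  rw [mul_div_assoc', le_div_iff₀ hy0]
  have h5 : (N : ℝ) * R ≤ 40 * (n * n) := by exact_mod_cast h
  calc (N : ℝ) * (n : ℝ) ^ (1 / 34 : ℝ) ≤ N * (2 * R) :=
        mul_le_mul_of_nonneg_left hy (Nat.cast_nonneg _)
    _ = 2 * (N * R) := by ring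
    _ ≤ 2 * (40 * (n * n)) := by linarith
    _ = 80 * (n : ℝ) ^ 2 := by ring

lemma good_of_not_bad (n : ℕ) (hR : 3200 < rt n) (M : Fin n → Fin n) (hM : M ∈ AM n)
    (hs : ¬ ShortBad (rt n) (rt n ^ 16) M) (hl : ¬ LamBad (rt n) M) :
    toG M ∈ goodMatchings n (80 * (n : ℝ) ^ (2 - 1 / 34 : ℝ)) := by
  have hM' := (mem_AM M).1 hM
  have hn : 1 ≤ n := by
    have h1 := rt_le n
    have h2 : rt n ≤ rt n ^ 34 := Nat.le_self_pow (by norm_num) _
    omega
  refine ⟨toG_matching hM', ?_⟩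
  obtain ⟨N', h1, h2⟩ := good_ramsey n (rt n) hR (rt_le _) M hM' hs hl
  refine ⟨N', real_bound n (rt n) N' (by omega) hn (rt_lt _) h1, fun G => ?_⟩
  rcases h2 Gᶜ with ⟨f, hf1, hf2⟩ | ⟨f, hf1, hf2⟩
  · right
    refine ⟨f, hf1, fun u v huv => ?_⟩
    rw [toG_adj hM'] at huv
    rw [← huv]
    exact hf2 u
  · left
    refine ⟨f, hf1, fun u v huv => ?_⟩
    rw [SimpleGraph.top_adj] at huv
    have h3 := hf2 u v huv
    rw [SimpleGraph.compl_adj] at h3
    by_contra h4
    exact h3 ⟨fun e => huv (hf1.injective e), h4⟩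

lemma card_le (n : ℕ) (hR : 3200 < rt n) : ∃ A1 A2 : Finset (Fin n → Fin n),
    (∀ M ∈ A1, M ∈ AM n ∧ LamBad (rt n) M) ∧
    (∀ M ∈ A2, M ∈ AM n ∧ ShortBad (rt n) (rt n ^ 16) M) ∧
    (AM n).card ≤ (goodMatchings n (80 * (n : ℝ) ^ (2 - 1 / 34 : ℝ))).ncard +
      (A1.card + A2.card) := by
  classical
  refine ⟨(AM n).filter fun M => LamBad (rt n) M, (AM n).filter fun M => ShortBad (rt n) (rt n ^ 16) M,
    fun M hM => Finset.mem_filter.1 hM, fun M hM => Finset.mem_filter.1 hM, ?_⟩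
  set A1 := (AM n).filter fun M => LamBad (rt n) M with hA1
  set A2 := (AM n).filter fun M => ShortBad (rt n) (rt n ^ 16) M with hA2
  rw [← matchings_ncard, matchings_eq]
  have hsub : toG '' (AM n : Set _) ⊆ goodMatchings n (80 * (n : ℝ) ^ (2 - 1 / 34 : ℝ)) ∪
      toG '' ((A1 ∪ A2 : Finset _) : Set _) := by
    rintro G ⟨M, hM, rfl⟩
    rw [Finset.mem_coe] at hM
    by_cases hMA : M ∈ A1 ∪ A2
    · exact Or.inr ⟨M, hMA, rfl⟩
    · left
      rw [Finset.mem_union, not_or, hA1, hA2, Finset.mem_filter, Finset.mem_filter] at hMA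
      exact good_of_not_bad n hR M hM (fun h => hMA.2 ⟨hM, h⟩) (fun h => hMA.1 ⟨hM, h⟩)
  refine (Set.ncard_le_ncard hsub (Set.toFinite _)).trans ?_
  refine (Set.ncard_union_le _ _).trans ?_
  refine Nat.add_le_add_left ?_ _
  refine (Set.ncard_image_le (Set.toFinite _)).trans ?_
  rw [Set.ncard_coe_finset]
  exact Finset.card_union_le _ _

lemma ratio_le (E g a C R : ℕ) (hE : 0 < E) (hR : 1 ≤ R) (hcard : E ≤ g + a)
    (hA : a * R ≤ C * E) : 1 - (C : ℝ) / (R : ℝ) ≤ (g : ℝ) / (E : ℝ) := by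
  have hE' : (0 : ℝ) < E := by exact_mod_cast hE
  have hR0 : (0 : ℝ) < (R : ℝ) := by exact_mod_cast hR
  rw [le_div_iff₀ hE']
  have h1 : (E : ℝ) ≤ g + a := by exact_mod_cast hcard
  have h2 : (a : ℝ) * (R : ℝ) ≤ C * E := by exact_mod_cast hA
  have h3 : (a : ℝ) ≤ (C : ℝ) / (R : ℝ) * E := by
    rw [div_mul_eq_mul_div, le_div_iff₀ hR0]
    exact h2
  linarith

/-- The fraction of the ordered matchings `M` on `n = 2 m` vertices for which the ordered Ramsey
number of the triangle and `M` is at most `C n ^ (2 - 1 / 34)` tends to `1` as `n` tends to infinity. -/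
theorem result : ∃ C : ℝ, Tendsto
    (fun m : ℕ => ((goodMatchings (2 * m) (C * ((2 * m : ℕ) : ℝ) ^ (2 - 1 / 34 : ℝ))).ncard : ℝ) /
      ((matchings (2 * m)).ncard : ℝ)) atTop (𝓝 1) := by
  refine ⟨80, ?_⟩
  obtain ⟨C, hC⟩ := bad1
  have hrt : Tendsto (fun m : ℕ => (rt (2 * m) : ℝ)) atTop atTop := by
    refine tendsto_natCast_atTop_atTop.comp ?_
    rw [tendsto_atTop]
    intro b
    filter_upwards [eventually_ge_atTop (b ^ 34)] with m hm
    exact le_rt _ _ (hm.trans (Nat.le_mul_of_pos_left m (by norm_num)))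
  have hlow : Tendsto (fun m : ℕ => 1 - ((C + 16 : ℕ) : ℝ) / (rt (2 * m) : ℝ)) atTop (𝓝 1) := by
    have h1 : Tendsto (fun m : ℕ => ((C + 16 : ℕ) : ℝ) / (rt (2 * m) : ℝ)) atTop (𝓝 0) :=
      Tendsto.div_atTop tendsto_const_nhds hrt
    simpa using tendsto_const_nhds.sub h1
  refine tendsto_of_tendsto_of_tendsto_of_le_of_le' hlow tendsto_const_nhds ?_ ?_
  · have hev : ∀ᶠ m : ℕ in atTop, 3201 ≤ rt (2 * m) := by
      have h := hrt.eventually_ge_atTop ((3201 : ℕ) : ℝ)
      filter_upwards [h] with m hm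
      exact Nat.cast_le.1 hm
    filter_upwards [hev] with m hm
    obtain ⟨A1, A2, h1, h2, h3⟩ := card_le (2 * m) (by omega)
    have h4 := hC (2 * m) (by omega) A1 h1
    have h5 := bad2 (2 * m) (by omega) A2 h2
    rw [matchings_ncard]
    refine ratio_le _ _ (A1.card + A2.card) (C + 16) (rt (2 * m)) (AM_pos m) (by omega) h3 ?_
    rw [Nat.add_mul, Nat.add_mul]
    omega
  · filter_upwards with m
    apply div_le_one_of_le₀ _ (Nat.cast_nonneg _)
    exact Nat.cast_le.2 (Set.ncard_le_ncard (fun G hG => hG.1) (Set.toFinite _))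

end Pool.Agent.Results.MP_5faa0b_co.AlmostAllMatchings
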